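import Mathlib

set_option autoImplicit false

namespace Pool.Agent.H661R3.Branch

open Equiv

theorem ai {α : Type} (g : Perm α) (x : α) : g (g⁻¹ x) = x := g.apply_symm_apply x

theorem ia {α : Type} (g : Perm α) (x : α) : g⁻¹ (g x) = x := g.symm_apply_apply x

/-- The group of finitary automorphisms of the binary tree.  Vertices are words, the parent of a
word is its tail, so the children of `w` are `true :: w` and `false :: w`. -/
def G : Subgroup (Perm (List Bool)) where
  carrier := {g | (∀ w, (g w).length = w.length) ∧ (∀ w, (g w).tail = g w.tail) ∧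
    ∃ N : ℕ, ∀ (x : Bool) (w : List Bool), N ≤ w.length → g (x :: w) = x :: g w}
  one_mem' := ⟨fun _ => rfl, fun _ => rfl, 0, fun _ _ _ => rfl⟩
  mul_mem' := by
    rintro g h ⟨hg1, hg2, N, hgN⟩ ⟨hh1, hh2, M, hhM⟩
    refine ⟨fun w => ?_, fun w => ?_, max N M, fun x w hw => ?_⟩
    · rw [Perm.mul_apply, hg1, hh1]
    · rw [Perm.mul_apply, Perm.mul_apply, hg2, hh2]
    · rw [Perm.mul_apply, Perm.mul_apply, hhM x w (le_trans (le_max_right _ _) hw),
        hgN x (h w) (by rw [hh1]; exact le_trans (le_max_left _ _) hw)]
  inv_mem' := by
    rintro g ⟨hg1, hg2, N, hgN⟩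
    have h1 : ∀ w, (g⁻¹ w).length = w.length := fun w => by
      rw [← hg1 (g⁻¹ w), ai]
    refine ⟨h1, fun w => ?_, N, fun x w hw => ?_⟩
    · apply g.injective
      rw [← hg2, ai, ai]
    · apply g.injective
      rw [ai, hgN x (g⁻¹ w) (by rw [h1]; exact hw), ai]

theorem G_len (g : G) (w : List Bool) : ((g : Perm (List Bool)) w).length = w.length := g.2.1 w

theorem G_tail (g : G) (w : List Bool) :
    ((g : Perm (List Bool)) w).tail = (g : Perm (List Bool)) w.tail := g.2.2.1 w

theorem G_drop (g : G) (w : List Bool) (k : ℕ) :
    ((g : Perm (List Bool)) w).drop k = (g : Perm (List Bool)) (w.drop k) := by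
  induction k generalizing w with
  | zero => rfl
  | succ k ih =>
    rw [← List.tail_drop, ih, G_tail, List.tail_drop]

theorem G_cons (g : G) (x : Bool) (w : List Bool) :
    ∃ y, (g : Perm (List Bool)) (x :: w) = y :: (g : Perm (List Bool)) w := by
  have h1 := G_len g (x :: w)
  have h2 := G_tail g (x :: w)
  cases h : (g : Perm (List Bool)) (x :: w) with
  | nil => rw [h] at h1; simp at h1
  | cons y v => rw [h] at h2; simp only [List.tail_cons] at h2; exact ⟨y, by rw [h2]⟩

/-- the label of `g` at the vertex `w` : `1` when `g` interchanges the letters above `w` -/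
def lab (g : G) (w : List Bool) : ZMod 2 :=
  if (g : Perm (List Bool)) (true :: w) = true :: (g : Perm (List Bool)) w then 0 else 1

theorem lab_spec (g : G) (w : List Bool) (x : Bool) :
    (g : Perm (List Bool)) (x :: w) =
      (if lab g w = 0 then x else !x) :: (g : Perm (List Bool)) w := by
  obtain ⟨y, hy⟩ := G_cons g true w
  obtain ⟨z, hz⟩ := G_cons g false w
  have hyz : y ≠ z := by
    rintro rfl
    have := (g : Perm (List Bool)).injective (hy.trans hz.symm)
    simp at this
  unfold lab
  rw [hy]
  cases x
  · rw [hz]; cases y <;> cases z <;> simp_all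
  · rw [hy]; cases y <;> cases z <;> simp_all

theorem lab_mul (g h : G) (w : List Bool) :
    lab (g * h) w = lab g ((h : Perm (List Bool)) w) + lab h w := by
  have e1 := lab_spec (g * h) w true
  have e2 : ((g * h : G) : Perm (List Bool)) (true :: w) =
    (g : Perm (List Bool)) ((h : Perm (List Bool)) (true :: w)) := rfl
  have e3 : ((g * h : G) : Perm (List Bool)) w =
    (g : Perm (List Bool)) ((h : Perm (List Bool)) w) := rfl
  rw [e2, lab_spec h w true, lab_spec g, e3] at e1
  generalize lab (g * h) w = a at *
  generalize lab h w = b at *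
  generalize lab g ((h : Perm (List Bool)) w) = c at *
  rw [List.cons.injEq] at e1
  have e4 := e1.1
  clear e1 e2 e3
  revert a b c
  decide

/-- the vertices of level `n` -/
abbrev Lev (n : ℕ) : Type := {w : List Bool // w.length = n}

instance (n : ℕ) : Finite (Lev n) := List.finite_length_eq Bool n

noncomputable instance (n : ℕ) : Fintype (Lev n) := Fintype.ofFinite _

/-- restriction of `g` to level `n` -/
def restr (g : G) (n : ℕ) : Perm (Lev n) where
  toFun w := ⟨(g : Perm (List Bool)) w.1, (G_len g w.1).trans w.2⟩
  invFun w := ⟨((g⁻¹ : G) : Perm (List Bool)) w.1, (G_len g⁻¹ w.1).trans w.2⟩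
  left_inv w := Subtype.ext (ia _ _)
  right_inv w := Subtype.ext (ai _ _)

/-- the sum of the labels of level `n` -/
noncomputable def lsum (n : ℕ) (g : G) : ZMod 2 := ∑ w : Lev n, lab g w.1

theorem lsum_mul (n : ℕ) (g h : G) : lsum n (g * h) = lsum n g + lsum n h := by
  unfold lsum
  simp only [lab_mul]
  rw [Finset.sum_add_distrib]
  congr 1
  exact Equiv.sum_comp (restr h n) (fun w : Lev n => lab g w.1)

theorem lsum_fin (g : G) : ∃ N, ∀ n, N ≤ n → lsum n g = 0 := by
  obtain ⟨N, hN⟩ := g.2.2.2
  refine ⟨N, fun n hn => Finset.sum_eq_zero fun w _ => ?_⟩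
  unfold lab
  rw [if_pos (hN true w.1 (by rw [w.2]; exact hn))]

/-- the character attached to a set `S` of levels -/
noncomputable def chi (S : Set ℕ) (g : G) : ZMod 2 := ∑ᶠ n ∈ S, lsum n g

theorem supp_finite (S : Set ℕ) (g : G) : (S ∩ Function.support fun n => lsum n g).Finite := by
  obtain ⟨N, hN⟩ := lsum_fin g
  refine (Set.finite_lt_nat N).subset ?_
  rintro n ⟨_, hn⟩
  by_contra h
  exact hn (hN n (by simpa using h))

theorem chi_mul (S : Set ℕ) (g h : G) : chi S (g * h) = chi S g + chi S h := by
  unfold chi
  simp only [lsum_mul]
  exact finsum_mem_add_distrib' (supp_finite S g) (supp_finite S h)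

/-- the character as a homomorphism -/
noncomputable def chiHom (S : Set ℕ) : G →* Multiplicative (ZMod 2) where
  toFun g := Multiplicative.ofAdd (chi S g)
  map_one' := by
    have h := chi_mul S 1 1
    rw [mul_one] at h
    have : chi S 1 = 0 := by
      have h' : chi S 1 + 0 = chi S 1 + chi S 1 := by rw [add_zero]; exact h
      exact (add_left_cancel h').symm
    rw [this]; rfl
  map_mul' g h := by rw [chi_mul]; rfl

/-- the words of length at most `n` -/
abbrev Upto (n : ℕ) : Type := {w : List Bool // w.length ≤ n}

instance (n : ℕ) : Finite (Upto n) := List.finite_length_le Bool n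

/-- action on the words of length at most `n` -/
def uptoHom (n : ℕ) : G →* Perm (Upto n) where
  toFun g :=
    { toFun := fun w => ⟨(g : Perm (List Bool)) w.1, (G_len g w.1).le.trans w.2⟩
      invFun := fun w => ⟨((g⁻¹ : G) : Perm (List Bool)) w.1, (G_len g⁻¹ w.1).le.trans w.2⟩
      left_inv := fun w => Subtype.ext (ia _ _)
      right_inv := fun w => Subtype.ext (ai _ _) }
  map_one' := rfl
  map_mul' _ _ := rfl

theorem mem_upto (n : ℕ) (g : G) :
    g ∈ (uptoHom n).ker ↔ ∀ w : List Bool, w.length ≤ n → (g : Perm (List Bool)) w = w := by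
  rw [MonoidHom.mem_ker]
  constructor
  · intro h w hw
    have := congrArg (fun e : Perm (Upto n) => (e ⟨w, hw⟩).1) h
    exact this
  · intro h
    ext w : 2
    exact h w.1 w.2

/-- the normal T-sequence attached to a set of levels -/
noncomputable def M (S : Set ℕ) (i : ℕ) : Subgroup G := (uptoHom i).ker ⊓ (chiHom S).ker

theorem mem_M (S : Set ℕ) (i : ℕ) (g : G) :
    g ∈ M S i ↔ (∀ w : List Bool, w.length ≤ i → (g : Perm (List Bool)) w = w) ∧ chi S g = 0 := by
  unfold M
  rw [Subgroup.mem_inf, mem_upto, MonoidHom.mem_ker]
  rfl

instance (S : Set ℕ) (i : ℕ) : (M S i).Normal := by unfold M; infer_instance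

instance (S : Set ℕ) (i : ℕ) : (M S i).FiniteIndex := by
  have : Finite (Multiplicative (ZMod 2)) := inferInstanceAs (Finite (ZMod 2))
  have h1 : (chiHom S).ker.FiniteIndex := Subgroup.finiteIndex_ker _
  have h2 : (uptoHom i).ker.FiniteIndex := Subgroup.finiteIndex_ker _
  unfold M; infer_instance

theorem M_antitone (S : Set ℕ) : Antitone (M S) := by
  intro i j hij g hg
  rw [mem_M] at hg ⊢
  exact ⟨fun w hw => hg.1 w (hw.trans hij), hg.2⟩

theorem M_iInf (S : Set ℕ) : (⨅ i, M S i) = ⊥ := by
  rw [eq_bot_iff]
  intro g hg
  rw [Subgroup.mem_iInf] at hg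
  rw [Subgroup.mem_bot]
  ext w : 2
  exact ((mem_M S w.length g).1 (hg w.length)).1 w le_rfl

/-- the underlying map of the flip above `u` -/
def flipFun (u : List Bool) : List Bool → List Bool
  | [] => []
  | x :: w => (if w = u then !x else x) :: flipFun u w

theorem flipFun_length (u w : List Bool) : (flipFun u w).length = w.length := by
  induction w with
  | nil => rfl
  | cons x w ih => simp [flipFun, ih]

theorem flipFun_short (u w : List Bool) (h : w.length ≤ u.length) : flipFun u w = w := by
  induction w with
  | nil => rfl
  | cons x w ih =>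
    simp only [List.length_cons] at h
    rw [flipFun, ih (by omega), if_neg]
    rintro rfl
    omega

theorem flipFun_flipFun (u w : List Bool) : flipFun u (flipFun u w) = w := by
  induction w with
  | nil => rfl
  | cons x w ih =>
    rw [flipFun, flipFun, ih]
    by_cases h : w = u
    · subst h
      rw [flipFun_short w w le_rfl]
      simp
    · have h' : flipFun u w ≠ u := by
        intro h'
        apply h
        rw [← ih, h', flipFun_short u u le_rfl]
      rw [if_neg h, if_neg h']

/-- the flip of the letter above the vertex `u` -/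
def flip (u : List Bool) : G :=
  ⟨{ toFun := flipFun u
     invFun := flipFun u
     left_inv := flipFun_flipFun u
     right_inv := flipFun_flipFun u }, by
    refine ⟨flipFun_length u, fun w => ?_, u.length + 1, fun x w hw => ?_⟩
    · cases w <;> rfl
    · show flipFun u (x :: w) = x :: flipFun u w
      rw [flipFun, if_neg]
      rintro rfl
      omega⟩

theorem flip_apply (u w : List Bool) : (flip u : Perm (List Bool)) w = flipFun u w := rfl

theorem lab_flip (u w : List Bool) : lab (flip u) w = if w = u then 1 else 0 := by
  unfold lab
  rw [flip_apply, flip_apply, flipFun]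
  by_cases h : w = u
  · simp [h]
  · simp [h]

theorem lsum_flip (u : List Bool) (n : ℕ) :
    lsum n (flip u) = if n = u.length then 1 else 0 := by
  unfold lsum
  simp only [lab_flip]
  by_cases h : n = u.length
  · subst h
    rw [if_pos rfl, Finset.sum_eq_single (⟨u, rfl⟩ : Lev u.length)]
    · simp
    · intro b _ hb
      rw [if_neg]
      intro h
      exact hb (Subtype.ext h)
    · intro h; exact absurd (Finset.mem_univ _) h
  · rw [if_neg h]
    apply Finset.sum_eq_zero
    intro w _
    rw [if_neg]
    intro h'
    exact h (by rw [← w.2, h'])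

theorem chi_flip (S : Set ℕ) (u : List Bool) [Decidable (u.length ∈ S)] :
    chi S (flip u) = if u.length ∈ S then 1 else 0 := by
  unfold chi
  simp only [lsum_flip]
  split_ifs with h
  · rw [finsum_mem_eq_sum_of_subset (t := {u.length})]
    · simp
    · rintro n ⟨_, h2⟩
      by_contra h3
      exact h2 (if_neg fun h4 => h3 (by simp [h4]))
    · intro n hn
      simp only [Finset.coe_singleton, Set.mem_singleton_iff] at hn
      exact hn ▸ h
  · apply finsum_mem_eq_zero_of_forall_eq_zero
    intro n hn
    rw [if_neg]
    rintro rfl
    exact h hn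

/-- level transitivity -/
theorem trans (v w : List Bool) (h : v.length = w.length) :
    ∃ g : G, (g : Perm (List Bool)) v = w := by
  induction v generalizing w with
  | nil =>
    refine ⟨1, ?_⟩
    cases w with
    | nil => rfl
    | cons y w => simp at h
  | cons x v ih =>
    cases w with
    | nil => simp at h
    | cons y w =>
      simp only [List.length_cons, add_left_inj] at h
      obtain ⟨g, hg⟩ := ih w h
      obtain ⟨z, hz⟩ := G_cons g x v
      rw [hg] at hz
      by_cases hzy : z = y
      · exact ⟨g, by rw [hz, hzy]⟩
      · refine ⟨flip w * g, ?_⟩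
        show flipFun w ((g : Perm (List Bool)) (x :: v)) = y :: w
        rw [hz, flipFun, flipFun_short w w le_rfl, if_pos rfl]
        congr 1
        cases z <;> cases y <;> simp_all

/-- The rigid stabilizer of the vertex `v` of level `n`: elements fixing each word without the
ancestor `v`. -/
def ristSet (n : ℕ) : Set G :=
  {g | ∃ v : List Bool, v.length = n ∧
    ∀ w : List Bool, (∀ k : ℕ, List.tail^[k] w ≠ v) → (g : Perm (List Bool)) w = w}

theorem iter_tail (k : ℕ) (w : List Bool) : List.tail^[k] w = w.drop k := by
  induction k generalizing w with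
  | zero => rfl
  | succ k ih => rw [Function.iterate_succ_apply, ih]; cases w <;> simp

/-- `w` lies below `v` -/
def below (v w : List Bool) : Prop := ∃ k : ℕ, w.drop k = v

theorem below_iff (g : G) (v : List Bool) (hv : (g : Perm (List Bool)) v = v) (w : List Bool) :
    below v ((g : Perm (List Bool)) w) ↔ below v w := by
  unfold below
  constructor
  · rintro ⟨k, hk⟩
    refine ⟨k, ?_⟩
    rw [G_drop] at hk
    rw [← hv] at hk
    exact (g : Perm (List Bool)).injective hk
  · rintro ⟨k, hk⟩
    refine ⟨k, ?_⟩
    rw [G_drop, hk, hv]

open Classical in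
/-- the part of `g` below `v` -/
noncomputable def partFun (g : G) (v w : List Bool) : List Bool :=
  if below v w then (g : Perm (List Bool)) w else w

theorem partFun_pos (g : G) (v w : List Bool) (h : below v w) :
    partFun g v w = (g : Perm (List Bool)) w := if_pos h

theorem partFun_neg (g : G) (v w : List Bool) (h : ¬ below v w) :
    partFun g v w = w := if_neg h

theorem below_partFun (g : G) (v : List Bool) (hv : (g : Perm (List Bool)) v = v)
    (w : List Bool) : below v (partFun g v w) ↔ below v w := by
  by_cases h : below v w
  · rw [partFun_pos g v w h, below_iff g v hv]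
  · rw [partFun_neg g v w h]

theorem inv_fix (g : G) (v : List Bool) (hv : (g : Perm (List Bool)) v = v) :
    ((g⁻¹ : G) : Perm (List Bool)) v = v := by
  apply (g : Perm (List Bool)).injective
  rw [hv]
  exact ai _ _

theorem partFun_inv (g : G) (v : List Bool) (hv : (g : Perm (List Bool)) v = v)
    (w : List Bool) : partFun g⁻¹ v (partFun g v w) = w := by
  by_cases h : below v w
  · rw [partFun_pos g v w h, partFun_pos _ _ _ ((below_iff g v hv w).2 h)]
    exact ia _ _
  · rw [partFun_neg g v w h, partFun_neg _ _ _ h]

/-- the part of `g` below `v`, an element of the group -/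
noncomputable def part (g : G) (v : List Bool) (hv : (g : Perm (List Bool)) v = v) : G :=
  ⟨{ toFun := partFun g v
     invFun := partFun g⁻¹ v
     left_inv := partFun_inv g v hv
     right_inv := fun w => by
      have := partFun_inv g⁻¹ v (inv_fix g v hv) w
      rwa [inv_inv] at this }, by
    obtain ⟨N, hN⟩ := g.2.2.2
    have key : ∀ (x : Bool) (w : List Bool), below v (x :: w) → ¬ below v w → x :: w = v := by
      rintro x w ⟨k, hk⟩ h2
      cases k with
      | zero => exact hk
      | succ k => exact absurd ⟨k, hk⟩ h2
    have key2 : ∀ (x : Bool) (w : List Bool), below v w → below v (x :: w) := by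
      rintro x w ⟨k, hk⟩
      exact ⟨k + 1, hk⟩
    refine ⟨fun w => ?_, fun w => ?_, max N (v.length + 1), fun x w hw => ?_⟩
    · show (partFun g v w).length = w.length
      by_cases h : below v w
      · rw [partFun_pos g v w h, G_len]
      · rw [partFun_neg g v w h]
    · show (partFun g v w).tail = partFun g v w.tail
      cases w with
      | nil =>
        by_cases h : below v []
        · rw [List.tail_nil, partFun_pos g v [] h, G_tail, List.tail_nil]
        · rw [List.tail_nil, partFun_neg g v [] h, List.tail_nil]
      | cons x w =>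
        rw [List.tail_cons]
        by_cases h : below v w
        · rw [partFun_pos g v w h, partFun_pos g v (x :: w) (key2 x w h), G_tail, List.tail_cons]
        · rw [partFun_neg g v w h]
          by_cases h' : below v (x :: w)
          · rw [partFun_pos g v _ h', key x w h' h, hv, ← key x w h' h, List.tail_cons]
          · rw [partFun_neg g v _ h', List.tail_cons]
    · show partFun g v (x :: w) = x :: partFun g v w
      have hw1 : N ≤ w.length := le_trans (le_max_left _ _) hw
      have hw2 : v.length + 1 ≤ w.length := le_trans (le_max_right _ _) hw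
      by_cases h : below v w
      · rw [partFun_pos g v w h, partFun_pos g v _ (key2 x w h), hN x w hw1]
      · have h' : ¬ below v (x :: w) := by
          intro h'
          have := key x w h' h
          rw [← this] at hw2
          simp only [List.length_cons] at hw2
          omega
        rw [partFun_neg g v w h, partFun_neg g v _ h']⟩

theorem part_apply (g : G) (v : List Bool) (hv : (g : Perm (List Bool)) v = v)
    (w : List Bool) : (part g v hv : Perm (List Bool)) w = partFun g v w := rfl

theorem part_mem (g : G) (v : List Bool) (hv : (g : Perm (List Bool)) v = v) :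
    part g v hv ∈ ristSet v.length := by
  refine ⟨v, rfl, fun w hw => ?_⟩
  rw [part_apply, partFun_neg]
  rintro ⟨k, hk⟩
  exact hw k (by rw [iter_tail, hk])

theorem decomp (n : ℕ) (l : List (List Bool)) :
    ∀ g : G, (∀ v ∈ l, v.length = n) →
      (∀ w : List Bool, w.length ≤ n → (g : Perm (List Bool)) w = w) →
      (∀ w : List Bool, (∀ v ∈ l, ¬ below v w) → (g : Perm (List Bool)) w = w) →
      g ∈ Subgroup.closure (ristSet n) := by
  induction l with
  | nil =>
    intro g _ _ h3
    have : g = 1 := by
      ext w : 2
      exact h3 w (by simp)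
    rw [this]
    exact Subgroup.one_mem _
  | cons v l ih =>
    intro g h1 h2 h3
    have hvl : v.length = n := h1 v (by simp)
    have hv : (g : Perm (List Bool)) v = v := h2 v hvl.le
    have hg : g = part g v hv * ((part g v hv)⁻¹ * g) := by group
    rw [hg]
    apply Subgroup.mul_mem
    · apply Subgroup.subset_closure
      rw [← hvl]
      exact part_mem g v hv
    · have hval : ∀ w, (((part g v hv)⁻¹ * g : G) : Perm (List Bool)) w =
          partFun g⁻¹ v ((g : Perm (List Bool)) w) := fun w => rfl
      apply ih
      · intro u hu
        exact h1 u (by simp [hu])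
      · intro w hw
        rw [hval, h2 w hw]
        by_cases h : below v w
        · rw [partFun_pos _ _ _ h]
          exact inv_fix g w (h2 w hw)
        · rw [partFun_neg _ _ _ h]
      · intro w hw
        rw [hval]
        by_cases h : below v w
        · rw [partFun_pos _ _ _ ((below_iff g v hv w).2 h)]
          exact ia _ _
        · rw [partFun_neg _ _ _ (fun h' => h ((below_iff g v hv w).1 h'))]
          apply h3
          intro u hu
          rw [List.mem_cons] at hu
          rcases hu with rfl | hu
          · exact h
          · exact hw u hu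

theorem stab_le (n : ℕ) : (uptoHom n).ker ≤ Subgroup.closure (ristSet n) := by
  intro g hg
  rw [mem_upto] at hg
  have hfin : ({w : List Bool | w.length = n}).Finite := List.finite_length_eq Bool n
  refine decomp n hfin.toFinset.toList g ?_ hg ?_
  · intro v hv
    simpa using hv
  · intro w hw
    apply hg
    by_contra hlt
    push Not at hlt
    apply hw (w.drop (w.length - n))
    · simp only [Finset.mem_toList, Set.Finite.mem_toFinset, Set.mem_ofPred_eq, List.length_drop]
      omega
    · exact ⟨_, rfl⟩

theorem rist_finiteIndex (n : ℕ) : (Subgroup.closure (ristSet n)).FiniteIndex := by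
  have h2 : (uptoHom n).ker.FiniteIndex := Subgroup.finiteIndex_ker _
  exact Subgroup.finiteIndex_of_le (stab_le n)

/-- disjoint infinite sets of levels -/
def S (a : ℕ) : Set ℕ := {n | n.unpair.1 = a}

theorem M_not_le (a b i j : ℕ) (hab : a ≠ b) : ¬ M (S b) j ≤ M (S a) i := by
  classical
  intro h
  have hlen : (List.replicate (Nat.pair a j) true).length = Nat.pair a j := by simp
  have ha : (List.replicate (Nat.pair a j) true).length ∈ S a := by
    rw [hlen]; simp [S]
  have hb : (List.replicate (Nat.pair a j) true).length ∉ S b := by
    rw [hlen]; simp [S, hab]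
  have h1 : flip (List.replicate (Nat.pair a j) true) ∈ M (S b) j := by
    rw [mem_M]
    refine ⟨fun w hw => ?_, ?_⟩
    · rw [flip_apply, flipFun_short]
      rw [hlen]
      exact hw.trans (Nat.right_le_pair a j)
    · rw [chi_flip, if_neg hb]
  have h2 := ((mem_M _ _ _).1 (h h1)).2
  rw [chi_flip, if_pos ha] at h2
  exact one_ne_zero h2

end Pool.Agent.H661R3.Branch
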